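import Pool.Agent.SHA.Stmts

/-!
# LIM (MP_65fb70_co): reduction to finite numbers
-/

set_option autoImplicit false

open Filter Topology

namespace Pool.Agent.SHA.H15

open Pool.Agent.SHA

/-- approximation of `n` by natural numbers -/
theorem approx (s : ℕ) (hs : 1 ≤ s) (n : ℕ∞) (hn : (s : ℕ∞) ≤ n) :
    ∃ N : ℕ → ℕ, (∀ k, s ≤ N k) ∧ (∀ k, (N k : ℕ∞) ≤ n) ∧
      Tendsto (fun k => ratio s (N k : ℕ∞)) atTop (𝓝 (ratio s n)) := by
  by_cases ht : n = ⊤
  · subst ht
    refine ⟨fun k => s + k, fun k => Nat.le_add_right s k, fun k => le_top, ?_⟩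
    rw [ratio_top]
    have h1 : Tendsto (fun k : ℕ => (s : ℝ) / ((k : ℝ))) atTop (𝓝 0) :=
      tendsto_const_div_atTop_nhds_zero_nat (s : ℝ)
    refine squeeze_zero' (Eventually.of_forall fun k => ?_) ?_ h1
    · rw [ratio_coe]
      positivity
    · filter_upwards [eventually_ge_atTop 1] with k hk
      rw [ratio_coe]
      have hk' : (0 : ℝ) < k := by exact_mod_cast hk
      have hs' : (0 : ℝ) ≤ s := Nat.cast_nonneg s
      apply div_le_div_of_nonneg_left hs' hk'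
      push_cast
      linarith
  · lift n to ℕ using ht
    refine ⟨fun _ => n, fun _ => by exact_mod_cast hn, fun _ => le_rfl, tendsto_const_nhds⟩

/-- LIM -/
theorem lim : LIMStmt := by
  intro s n₁ n₂ c hs h1 h2 h
  by_cases ht : n₁ = ⊤ ∨ n₂ = ⊤
  · obtain ⟨N₁, a1, b1, c1⟩ := approx s hs n₁ h1
    obtain ⟨N₂, a2, b2, c2⟩ := approx s hs n₂ h2
    have hden : 1 - ratio s n₁ * ratio s n₂ ≠ 0 := by
      rcases ht with rfl | rfl
      · rw [ratio_top, zero_mul, sub_zero]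
        exact one_ne_zero
      · rw [ratio_top, mul_zero, sub_zero]
        exact one_ne_zero
    have hth : Tendsto (fun k => lead s (N₁ k : ℕ∞) (N₂ k : ℕ∞)) atTop (𝓝 (lead s n₁ n₂)) := by
      have e1 : Tendsto (fun k => (1 - ratio s (N₁ k : ℕ∞)) * (1 - ratio s (N₂ k : ℕ∞))) atTop
          (𝓝 ((1 - ratio s n₁) * (1 - ratio s n₂))) :=
        (tendsto_const_nhds.sub c1).mul (tendsto_const_nhds.sub c2)
      have e2 : Tendsto (fun k => 1 - ratio s (N₁ k : ℕ∞) * ratio s (N₂ k : ℕ∞)) atTop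
          (𝓝 (1 - ratio s n₁ * ratio s n₂)) :=
        tendsto_const_nhds.sub (c1.mul c2)
      have e3 : Tendsto (fun k => theta s (N₁ k : ℕ∞) (N₂ k : ℕ∞)) atTop (𝓝 (theta s n₁ n₂)) :=
        e1.div e2 hden
      exact (e3.const_add 1).const_mul (s : ℝ)
    exact le_of_tendsto' hth (fun k => h _ _ (a1 k) (a2 k) (b1 k) (b2 k))
  · push Not at ht
    obtain ⟨t1, t2⟩ := ht
    lift n₁ to ℕ using t1
    lift n₂ to ℕ using t2
    exact h n₁ n₂ (by exact_mod_cast h1) (by exact_mod_cast h2) le_rfl le_rfl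

end Pool.Agent.SHA.H15
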