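import Pool.Agent.SHA.StmtsB

/-!
# SHA, row B_UPR (helper15): the upper bound for rational ratios
-/

set_option autoImplicit false

namespace Pool.Agent.SHA.H15

open Pool.Agent.Helper18_Helly Pool.Agent.SHA

universe u

/-- splitting off `a` points -/
theorem splitR {s a q : ℕ} (hs : q + 1 = s) (ha : 1 ≤ a) {n : ℕ∞}
    (hn : ∀ M : ℕ, n = M → s + a ≤ M)
    (hc : ∀ M : ℕ, n = M → M < a * s ∧ ∃ c : ℕ, c * M = a * s) :
    ∃ N : ℕ∞, n = N + a ∧ (q : ℕ∞) < N ∧
      ∀ k : ℕ, (∀ M : ℕ, N = M → a * q ≤ (k + 1) * M) → ratio s n ≤ (k : ℝ) / a := by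
  have haR : (0 : ℝ) < a := by exact_mod_cast ha
  induction n using ENat.recTopCoe with
  | top =>
    refine ⟨⊤, ?_, ?_, ?_⟩
    · rw [top_add]
    · exact WithTop.coe_lt_top _
    · intro k _
      rw [ratio_top]
      positivity
  | coe m =>
    have h1 := hn m rfl
    obtain ⟨h2, c, h3⟩ := hc m rfl
    refine ⟨((m - a : ℕ) : ℕ∞), ?_, ?_, ?_⟩
    · have h7 : m = m - a + a := by omega
      exact_mod_cast h7
    · have h7 : q < m - a := by omega
      exact_mod_cast h7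
    · intro k hk
      have h4 := hk (m - a) rfl
      have hc2 : 2 ≤ c := by
        by_contra hlt
        have : c = 0 ∨ c = 1 := by omega
        rcases this with h | h
        · rw [h, Nat.zero_mul] at h3
          have : 0 < a * s := Nat.mul_pos ha (by omega)
          omega
        · rw [h, Nat.one_mul] at h3
          omega
      have hck : c ≤ k := by
        by_contra hlt
        have h5 : k + 1 ≤ c := by omega
        have h6 : a * q ≤ c * (m - a) := h4.trans (Nat.mul_le_mul_right _ h5)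
        have h7 : c * (m - a) + c * a = a * q + a := by
          rw [← Nat.mul_add, Nat.sub_add_cancel (by omega), h3, ← hs, Nat.mul_add, Nat.mul_one]
        have h8 : 2 * a ≤ c * a := Nat.mul_le_mul_right _ hc2
        omega
      have hm0 : (0 : ℝ) < m := by exact_mod_cast (by omega : 0 < m)
      rw [ratio_coe, div_le_div_iff₀ hm0 haR]
      have h5 : c * m ≤ k * m := Nat.mul_le_mul_right _ hck
      have h6 : s * a ≤ k * m := by
        rw [Nat.mul_comm s a, ← h3]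
        exact h5
      exact_mod_cast h6

theorem ratio_nonneg (s : ℕ) (n : ℕ∞) : 0 ≤ ratio s n := by
  unfold ratio
  split_ifs
  · exact le_rfl
  · positivity

theorem upr (hDES : DESStmt) (hCON : CONStmt.{u}) (hGUB : GUBStmt) (hANB : ANBStmt)
    (hBAS : BASStmt) : UPRStmt.{u} := by
  intro s a n₁ n₂ hs ha h1 h2 hc1 hc2
  have hs1 : 1 ≤ s := by omega
  obtain ⟨hθ, -, -, -⟩ := hBAS s n₁ n₂ hs1 h1.le h2.le
  have hs0 : (0 : ℝ) ≤ s := Nat.cast_nonneg s
  have hsR : (2 : ℝ) ≤ s := by exact_mod_cast hs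
  have haR : (0 : ℝ) < a := by exact_mod_cast ha
  have hlead : (s : ℝ) ≤ lead s n₁ n₂ := by
    unfold lead
    nlinarith
  by_cases hA : ∃ m : ℕ, min n₁ n₂ ≤ m ∧ m < s + a
  · obtain ⟨m, hm, hm'⟩ := hA
    have hfin : min n₁ n₂ ≠ ⊤ := ne_top_of_le_ne_top (ENat.natCast_ne_top m) hm
    have h3 := value_min.{u} hs1 h1.le h2.le hfin
    obtain ⟨m', hm1⟩ := ENat.ne_top_iff_exists.1 hfin
    rw [← hm1] at hm h3
    have h4 : m' ≤ m := by exact_mod_cast hm
    refine ⟨m', h3, ?_⟩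
    have h5 : m' ≤ s + a := by omega
    have h6 : (m' : ℝ) ≤ s + a := by exact_mod_cast h5
    linarith
  have hB1 : ∀ m : ℕ, n₁ = m → s + a ≤ m := by
    intro m hm
    by_contra h3
    exact hA ⟨m, hm ▸ min_le_left _ _, by omega⟩
  have hB2 : ∀ m : ℕ, n₂ = m → s + a ≤ m := by
    intro m hm
    by_contra h3
    exact hA ⟨m, hm ▸ min_le_right _ _, by omega⟩
  obtain ⟨q, hq⟩ : ∃ q : ℕ, q + 1 = s := ⟨s - 1, by omega⟩
  have hq1 : 1 ≤ q := by omega
  obtain ⟨N, hN, hqN, hM⟩ := splitR hq ha hB1 hc1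
  obtain ⟨N', hN', hqN', hM'⟩ := splitR hq ha hB2 hc2
  obtain ⟨k, I, d1, d2, d3, d4, d5, d6⟩ := hDES q a N hq1 ha hqN
  obtain ⟨k', I', g1, g2, g3, g4, g5, g6⟩ := hDES q a N' hq1 ha hqN'
  have hr1 := hM k d6
  have hr2 := hM' k' g6
  have hside : ∀ (n : ℕ∞) (r : ℝ), ratio s n ≤ r →
      ((s : ℝ) - 1) * (((s : ℝ) - 1) / s * ratio s n - r) ≤ 0 := by
    intro n r hr
    have e1 : ((s : ℝ) - 1) / s ≤ 1 := by
      rw [div_le_one (by linarith)]
      linarith
    have e2 : ((s : ℝ) - 1) / s * ratio s n ≤ ratio s n := by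
      have := mul_le_mul_of_nonneg_right e1 (ratio_nonneg s n)
      linarith
    have e3 : ((s : ℝ) - 1) / s * ratio s n - r ≤ 0 := by linarith
    exact mul_nonpos_of_nonneg_of_nonpos (by linarith) e3
  have hk1 : (k : ℝ) / a < 1 := by
    rw [div_lt_one haR]
    exact_mod_cast d1
  have hk2 : (k' : ℝ) / a < 1 := by
    rw [div_lt_one haR]
    exact_mod_cast g1
  have hanb := hANB s n₁ n₂ ((k : ℝ) / a) ((k' : ℝ) / a) 0 0 hs1 h1 h2 (by positivity) hk1
    (by positivity) hk2 le_rfl le_rfl (hside _ _ hr1) (hside _ _ hr2)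
  have hfin : ∀ x y e e' : ℕ, e ≤ a → e' ≤ a → e + k * x + a * y ≤ a * s →
      e' + k' * y + a * x ≤ a * s → x + y + e + e' ≤ ⌊lead s n₁ n₂ + 2 * a⌋₊ := by
    intro x y e e' c1 c2 c3 c4
    apply Nat.le_floor
    have h3 := hGUB s a k k' x y e e' hs1 d1 g1 c1 c2 c3 c4
    push_cast
    linarith
  obtain ⟨v, hv, hval⟩ := hCON s a k k' ⌊lead s n₁ n₂ + 2 * a⌋₊ N N' I I' hs1 ha d2
    (fun j hj => by have := d3 j hj; omega) (by omega) d5 g2
    (fun j hj => by have := g3 j hj; omega) (by omega) g5 hfin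
  rw [← hN, ← hN'] at hval
  refine ⟨v, hval, ?_⟩
  have h3 : (v : ℝ) ≤ (⌊lead s n₁ n₂ + 2 * a⌋₊ : ℝ) := by exact_mod_cast hv
  exact h3.trans (Nat.floor_le (by linarith))

end Pool.Agent.SHA.H15
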